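import Pool.Agent.H14.PD.Stmts

/-!
Project PD, module TFA: from finite types of generators to `Fin k`.
-/

set_option autoImplicit false

namespace Pool.Agent.H14.PD

theorem pd_tfa_ar {X Y : Type} (f : FreeGroup X →* FreeGroup Y) {R : Set (FreeGroup X)} {n : ℕ}
    {w : FreeGroup X} (h : Ar R n w) : Ar (f '' R) n (f w) := by
  obtain ⟨L, h1, h2, h3⟩ := h
  refine ⟨L.map (fun p => (f p.1, f p.2)), ?_, ?_, ?_⟩
  · intro p hp
    rw [List.mem_map] at hp
    obtain ⟨q, hq, rfl⟩ := hp
    rcases h1 q hq with h | h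
    · exact Or.inl ⟨_, h, rfl⟩
    · exact Or.inr ⟨_, h, by simp⟩
  · rw [List.map_map, ← h2, map_list_prod, List.map_map]
    congr 1
    refine List.map_congr_left fun p _ => ?_
    simp
  · rw [List.length_map]
    exact h3

theorem pd_tfa_nc {X Y : Type} (f : FreeGroup X ≃* FreeGroup Y) (R : Set (FreeGroup X))
    (w : FreeGroup X) : f w ∈ Subgroup.normalClosure (f '' R) ↔ w ∈ Subgroup.normalClosure R := by
  have h : (Subgroup.normalClosure R).map f.toMonoidHom = Subgroup.normalClosure (f '' R) :=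
    Subgroup.map_normalClosure R f.toMonoidHom f.surjective
  rw [← h]
  constructor
  · rintro ⟨v, hv, hvw⟩
    have : v = w := f.injective hvw
    rw [← this]
    exact hv
  · intro hw
    exact ⟨w, hw, rfl⟩

theorem pd_tfa_ar_iff {X Y : Type} (f : FreeGroup X ≃* FreeGroup Y) {R : Set (FreeGroup X)} {n : ℕ}
    {w : FreeGroup X} : Ar (f '' R) n (f w) ↔ Ar R n w := by
  constructor
  · intro h
    have h1 := pd_tfa_ar f.symm.toMonoidHom h
    have e1 : (f.symm.toMonoidHom '' (f '' R)) = R := by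
      ext r
      constructor
      · rintro ⟨_, ⟨s, hs, rfl⟩, rfl⟩
        simpa using hs
      · intro hr
        exact ⟨f r, ⟨r, hr, rfl⟩, by simp⟩
    have e2 : f.symm.toMonoidHom (f w) = w := by simp
    rw [e1, e2] at h1
    exact h1
  · intro h
    exact pd_tfa_ar f.toMonoidHom h

theorem pd_tfa : TFA := by
  intro d X X' _ _ R R' K C Th hR hR' h1 h2 h3
  classical
  obtain ⟨k, ⟨e⟩⟩ := Finite.exists_equiv_fin X
  obtain ⟨m, ⟨e'⟩⟩ := Finite.exists_equiv_fin X'
  let φ : FreeGroup X ≃* FreeGroup (Fin k) := FreeGroup.freeGroupCongr e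
  let φ' : FreeGroup X' ≃* FreeGroup (Fin m) := FreeGroup.freeGroupCongr e'
  let Th1 : FreeGroup (Fin m) →* FreeGroup (Fin k) :=
    (φ.toMonoidHom.comp Th).comp φ'.symm.toMonoidHom
  have hc : ((hR.image φ).toFinset : Set (FreeGroup (Fin k))) = φ '' R := by simp
  have hc' : ((hR'.image φ').toFinset : Set (FreeGroup (Fin m))) = φ' '' R' := by simp
  have hm : ∀ x, x ∈ (hR.image φ).toFinset ↔ x ∈ φ '' R := by simp
  have hm' : ∀ x, x ∈ (hR'.image φ').toFinset ↔ x ∈ φ' '' R' := by simp
  refine ⟨k, (hR.image φ).toFinset, ⟨K, ?_⟩, m,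
    fun i => PresentedGroup.mk _ (Th1 (FreeGroup.of i)), (hR'.image φ').toFinset, ?_, C, ?_⟩
  · intro w hw
    rw [hc] at hw
    obtain ⟨v, rfl⟩ := φ.surjective w
    rw [pd_tfa_nc] at hw
    have hv : v = φ.symm (φ v) := by simp
    -- the word of the same length
    have hL : v = FreeGroup.mk ((φ v).toWord.map (fun x => (e.symm x.1, x.2))) := by
      have h4 : φ.symm (FreeGroup.mk (φ v).toWord) =
          FreeGroup.mk ((φ v).toWord.map (fun x => (e.symm x.1, x.2))) := rfl
      rw [← h4, FreeGroup.mk_toWord]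
      exact hv
    have h5 := h1 ((φ v).toWord.map (fun x => (e.symm x.1, x.2))) (by rw [← hL]; exact hw)
    rw [← hL, List.length_map] at h5
    obtain ⟨L, h6, h7, h8⟩ := pd_tfa_ar φ.toMonoidHom h5
    refine ⟨L, ?_, h7, h8.trans (Nat.le_add_right _ _)⟩
    intro p hp
    rw [hm, hm]
    exact h6 p hp
  · have hl : FreeGroup.lift (fun i => PresentedGroup.mk
        (((hR.image φ).toFinset : Set (FreeGroup (Fin k)))) (Th1 (FreeGroup.of i))) =
        (PresentedGroup.mk (((hR.image φ).toFinset : Set (FreeGroup (Fin k))))).comp Th1 := by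
      ext i
      simp
    rw [hl]
    ext w
    rw [MonoidHom.mem_ker, MonoidHom.comp_apply, PresentedGroup.mk_eq_one_iff, hc, hc']
    obtain ⟨v, rfl⟩ := φ'.surjective w
    have h4 : Th1 (φ' v) = φ (Th v) := by
      show φ (Th (φ'.symm (φ' v))) = φ (Th v)
      simp
    rw [h4, pd_tfa_nc, pd_tfa_nc]
    exact h2 v
  · intro n
    obtain ⟨L, h4, h5, h6⟩ := h3 n
    refine ⟨φ' (FreeGroup.mk L), ?_, ?_, ?_⟩
    · rw [hc', pd_tfa_nc]
      exact h5
    · have h7 : φ' (FreeGroup.mk L) = FreeGroup.mk (L.map (fun x => (e' x.1, x.2))) := rfl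
      rw [h7]
      have h8 := FreeGroup.norm_mk_le (L₁ := L.map (fun x => (e' x.1, x.2)))
      rw [List.length_map] at h8
      exact le_trans h8 h4
    · intro L' h7 h8
      refine h6 L'.length ?_
      rw [← pd_tfa_ar_iff φ']
      refine ⟨L', ?_, h8, le_refl _⟩
      intro p hp
      have := h7 p hp
      rw [hm', hm'] at this
      exact this

end Pool.Agent.H14.PD
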