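import Pool.Agent.H14.PD.Stmts
import Pool.Agent.H48.PD.TFA

/-!
Project PD, module TFB: from a set of generators with a finite essential part to finite types.
-/

set_option autoImplicit false

namespace Pool.Agent.H14.PD

theorem pd_tfb_mono {X : Type} {R R' : Set (FreeGroup X)} (h : R ⊆ R') {n : ℕ}
    {w : FreeGroup X} (hw : Ar R n w) : Ar R' n w := by
  obtain ⟨L, h1, h2, h3⟩ := hw
  refine ⟨L, fun p hp => ?_, h2, h3⟩
  rcases h1 p hp with h4 | h4
  · exact Or.inl (h h4)
  · exact Or.inr (h h4)

theorem pd_tfb : M_TFB := by
  intro hT d X X' _ A R R' K C Th hR hA h1 h2 h3 h4 h5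
  classical
  have : Finite A := hA
  let inc : FreeGroup A →* FreeGroup X' := FreeGroup.map Subtype.val
  let ret : FreeGroup X' →* FreeGroup A :=
    FreeGroup.lift (fun x => if h : x ∈ A then FreeGroup.of (⟨x, h⟩ : A) else 1)
  have hri : ∀ w, ret (inc w) = w := by
    intro w
    have h : ret.comp inc = MonoidHom.id _ := by
      ext x
      simp [ret, inc]
    exact DFunLike.congr_fun h w
  have hir : ∀ w ∈ Subgroup.closure (FreeGroup.of '' A), inc (ret w) = w := by
    intro w hw
    induction hw using Subgroup.closure_induction with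
    | mem x hx =>
      obtain ⟨a, ha, rfl⟩ := hx
      simp [ret, inc, ha]
    | one => simp
    | mul x y _ _ hx hy => rw [map_mul, map_mul, hx, hy]
    | inv x _ hx => rw [map_inv, map_inv, hx]
  have hic : ∀ w, inc w ∈ Subgroup.closure (FreeGroup.of '' A) := by
    intro w
    induction w using FreeGroup.induction_on with
    | C1 => rw [map_one]; exact Subgroup.one_mem _
    | of x => exact Subgroup.subset_closure ⟨x.1, x.2, by simp [inc]⟩
    | inv_of x hx => rw [map_inv]; exact Subgroup.inv_mem _ hx
    | mul x y hx hy => rw [map_mul]; exact Subgroup.mul_mem _ hx hy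
  have hinj : Function.Injective inc := Function.LeftInverse.injective hri
  refine hT d X A R {r | inc r ∈ R'} K C (Th.comp inc) hR ?_ h3 ?_ ?_
  · refine Set.Finite.of_finite_image (f := inc) (h2.subset ?_) hinj.injOn
    rintro _ ⟨r, hr, rfl⟩
    exact ⟨hr, hic r⟩
  · intro w
    rw [MonoidHom.comp_apply, h4]
    constructor
    · intro hw
      have h6 : Subgroup.normalClosure R' ≤
          (Subgroup.normalClosure {r | inc r ∈ R'}).comap ret := by
        refine Subgroup.normalClosure_le_normal ?_
        intro r hr
        rcases h1 r hr with ⟨x, hx, rfl⟩ | hc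
        · show ret (FreeGroup.of x) ∈ Subgroup.normalClosure {r | inc r ∈ R'}
          have : ret (FreeGroup.of x) = 1 := by simp [ret, hx]
          rw [this]
          exact Subgroup.one_mem _
        · show ret r ∈ Subgroup.normalClosure {r | inc r ∈ R'}
          refine Subgroup.subset_normalClosure ?_
          show inc (ret r) ∈ R'
          rw [hir r hc]
          exact hr
      have h7 := h6 hw
      rw [Subgroup.mem_comap, hri] at h7
      exact h7
    · intro hw
      have h6 : Subgroup.normalClosure {r | inc r ∈ R'} ≤
          (Subgroup.normalClosure R').comap inc := by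
        refine Subgroup.normalClosure_le_normal ?_
        intro r hr
        exact Subgroup.subset_normalClosure hr
      exact h6 hw
  · intro n
    obtain ⟨L, hL, h6, h7, h8⟩ := h5 n
    have hmk : inc (FreeGroup.mk (L.attach.map (fun x => ((⟨x.1.1, hL x.1 x.2⟩ : A), x.1.2)))) =
        FreeGroup.mk L := by
      have h9 : inc (FreeGroup.mk (L.attach.map
          (fun x => ((⟨x.1.1, hL x.1 x.2⟩ : A), x.1.2)))) =
          FreeGroup.mk ((L.attach.map (fun x => ((⟨x.1.1, hL x.1 x.2⟩ : A), x.1.2))).map
            (fun x => (x.1.1, x.2))) := rfl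
      rw [h9, List.map_map]
      have h10 : (L.attach.map ((fun x : A × Bool => ((x.1.1 : X'), x.2)) ∘
          (fun x : {x // x ∈ L} => ((⟨x.1.1, hL x.1 x.2⟩ : A), x.1.2)))) = L := by
        conv_rhs => rw [← List.attach_map_subtype_val L]
        rfl
      rw [h10]
    refine ⟨L.attach.map (fun x => ((⟨x.1.1, hL x.1 x.2⟩ : A), x.1.2)), ?_, ?_, ?_⟩
    · rw [List.length_map, List.length_attach]
      exact h6
    · have h6 : Subgroup.normalClosure R' ≤
          (Subgroup.normalClosure {r | inc r ∈ R'}).comap ret := by
        refine Subgroup.normalClosure_le_normal ?_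
        intro r hr
        rcases h1 r hr with ⟨x, hx, rfl⟩ | hc
        · show ret (FreeGroup.of x) ∈ Subgroup.normalClosure {r | inc r ∈ R'}
          have : ret (FreeGroup.of x) = 1 := by simp [ret, hx]
          rw [this]
          exact Subgroup.one_mem _
        · show ret r ∈ Subgroup.normalClosure {r | inc r ∈ R'}
          refine Subgroup.subset_normalClosure ?_
          show inc (ret r) ∈ R'
          rw [hir r hc]
          exact hr
      have h9 := h6 h7
      rw [Subgroup.mem_comap, ← hmk, hri] at h9
      exact h9
    · intro N hN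
      refine h8 N ?_
      rw [← hmk]
      refine pd_tfb_mono ?_ (pd_tfa_ar inc hN)
      rintro _ ⟨r, hr, rfl⟩
      exact hr

end Pool.Agent.H14.PD
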