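import Pool.Agent.H14.PD.Stmts

/-!
Project PD: common lemmas for the modules XGA, XGP, XGB.
-/

set_option autoImplicit false

namespace Pool.Agent.H14.PD

section
variable {P Q : Type} (Z : Sz P Q)

/-- the `Q`-end of a label -/
def xgQ (s : Xs P Q) : Nd P Q := Nd.q s.2.2.1 s.2.2.2

/-- the `P`-end of a label -/
noncomputable def xgP (s : Xs P Q) : Nd P Q := pe Z s.2.1 s.2.2.2

/-- a path of labels in one coordinate, from the node `n` to the node `m` -/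
def xgCh : Nd P Q → List (Xs P Q) → Nd P Q → Prop
  | n, [], m => n = m
  | n, s :: l, m => (n = xgQ s ∧ xgCh (xgP Z s) l m) ∨ (n = xgP Z s ∧ xgCh (xgQ s) l m)

theorem xg_qq {s t : Xs P Q} (h : xgQ s = xgQ t) : s.2.2.1 = t.2.2.1 ∧ s.2.2.2 = t.2.2.2 := by
  unfold xgQ at h
  exact Nd.q.inj h

theorem xg_pe (hO : XCO) (s : Xs P Q) : ∃ c, xgP Z s = Nd.p s.2.1 c ∧
    (s.2.1 ≠ Z.ps → c = s.2.2.2) ∧ (s.2.1 = Z.ps → c = false) :=
  (hO P Q Z).2.2 s.2.1 s.2.2.2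

theorem xg_qp (hO : XCO) {s t : Xs P Q} (h : xgQ s = xgP Z t) : False := by
  obtain ⟨c, hc, _⟩ := xg_pe Z hO t
  rw [hc] at h
  unfold xgQ at h
  cases h

theorem xg_pp (hO : XCO) {s t : Xs P Q} (h : xgP Z s = xgP Z t) :
    s.2.1 = t.2.1 ∧ (s.2.1 = Z.ps ∨ s.2.2.2 = t.2.2.2) := by
  obtain ⟨c, hc, hc1, hc2⟩ := xg_pe Z hO s
  obtain ⟨d, hd, hd1, hd2⟩ := xg_pe Z hO t
  rw [hc, hd] at h
  have h1 := Nd.p.inj h
  refine ⟨h1.1, ?_⟩
  by_cases h2 : s.2.1 = Z.ps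
  · exact Or.inl h2
  · refine Or.inr ?_
    rw [← hc1 h2, ← hd1 (fun h3 => h2 (h1.1.trans h3))]
    exact h1.2

theorem xg_eq {s t : Xs P Q} (h1 : s.1 = t.1) (h2 : s.2.1 = t.2.1) (h3 : s.2.2.1 = t.2.2.1)
    (h4 : s.2.2.2 = t.2.2.2) : s = t :=
  Prod.ext h1 (Prod.ext h2 (Prod.ext h3 h4))

/-- one letter -/
theorem xg_lab (hO : XCO) {x : Xv P Q} {s : Xs P Q} (h : xlab Z x s) :
    (x s.1 = xgQ s ∧ xact Z x s s.1 = xgP Z s) ∨ (x s.1 = xgP Z s ∧ xact Z x s s.1 = xgQ s) :=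
  ((hO P Q Z).1 x s h).2.2.1

/-- other coordinates -/
theorem xg_oth (hO : XCO) {x : Xv P Q} {s : Xs P Q} (h : xlab Z x s) {i : Fin 3} (hi : s.1 ≠ i) :
    xact Z x s i = x i :=
  ((hO P Q Z).1 x s h).2.2.2 i (fun e => hi e.symm)

/-- the path of the coordinate `i` of a traced word -/
theorem xg_ch (hO : XCO) (i : Fin 3) : ∀ (w : List (Xs P Q)) (x : Xv P Q),
    Tr (xlab Z) (xact Z) x w →
    xgCh Z (x i) (w.filter (fun s => s.1 = i)) (en (xact Z) x w i) := by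
  intro w
  induction w with
  | nil => intro x _; rfl
  | cons s w ih =>
    intro x h
    have h1 : xlab Z x s := h.1
    have h2 := ih _ h.2
    by_cases hs : s.1 = i
    · subst hs
      rw [List.filter_cons_of_pos (by simp)]
      show xgCh Z (x s.1) (s :: _) (en (xact Z) (xact Z x s) w s.1)
      unfold xgCh
      rcases xg_lab Z hO h1 with ⟨h3, h4⟩ | ⟨h3, h4⟩
      · left
        refine ⟨h3, ?_⟩
        rw [← h4]
        exact h2
      · right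
        refine ⟨h3, ?_⟩
        rw [← h4]
        exact h2
    · rw [List.filter_cons_of_neg (by simpa using hs)]
      have h3 := xg_oth Z hO h1 hs
      rw [h3] at h2
      exact h2

/-- words with all letters in direction `i` -/
theorem xg_ch' (hO : XCO) (i : Fin 3) {w : List (Xs P Q)} {x : Xv P Q}
    (h : Tr (xlab Z) (xact Z) x w) (hw : ∀ s ∈ w, s.1 = i) :
    xgCh Z (x i) w (en (xact Z) x w i) := by
  have h1 := xg_ch Z hO i w x h
  rwa [List.filter_eq_self.2 (by simpa using hw)] at h1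

/-- the vertices of a traced word are good -/
theorem xg_gd (hO : XCO) (hT : TRB) {x : Xv P Q} {a : List (Xs P Q)} {s : Xs P Q}
    {b : List (Xs P Q)} (h : Tr (xlab Z) (xact Z) x (a ++ s :: b)) :
    xlab Z (en (xact Z) x a) s ∧ gd Z (en (xact Z) x a) ∧
      gd Z (xact Z (en (xact Z) x a) s) ∧ Tr (xlab Z) (xact Z) (xact Z (en (xact Z) x a) s) b ∧
      Tr (xlab Z) (xact Z) x a := by
  have h1 := ((hT _ _ (xlab Z) (xact Z)).1 x a (s :: b)).1 h
  have h2 : xlab Z (en (xact Z) x a) s := h1.2.1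
  have h3 := (hO P Q Z).1 _ _ h2
  exact ⟨h2, h3.1, h3.2.1, h1.2.2, h1.1⟩

/-- adjacency at a good vertex -/
theorem xg_adj (hO : XCO) {x : Xv P Q} (h : gd Z x) {i : Fin 3} {s t : Xs P Q}
    (hs : x i = xgP Z s) (ht : x (i + 1) = xgQ t) : Z.adj s.2.1 t.2.2.1 := by
  obtain ⟨c, hc, _⟩ := xg_pe Z hO s
  exact h.2 i s.2.1 c t.2.2.1 t.2.2.2 (hs.trans hc) ht

end

end Pool.Agent.H14.PD
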