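import Pool.Agent.H48.PD.XG

/-!
Project PD, module XGA: a long reduced word in one direction sees two `P`-names and two `Q`-names.
-/

set_option autoImplicit false

namespace Pool.Agent.H14.PD

section
variable {P Q : Type} (Z : Sz P Q)

/-- different labels with the same `Q`-node -/
theorem xga_q {s t : Xs P Q} (h1 : s.1 = t.1) (hne : s ≠ t) (h : xgQ s = xgQ t) :
    s.2.1 ≠ t.2.1 := by
  intro h2
  have e := xg_qq h
  exact hne (xg_eq h1 h2 e.1 e.2)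

/-- different labels with the same `P`-node -/
theorem xga_p (hO : XCO) {s t : Xs P Q} (h1 : s.1 = t.1) (hne : s ≠ t) (h : xgP Z s = xgP Z t) :
    (s.2.1 = Z.ps ∧ t.2.1 = Z.ps) ∨ s.2.2.1 ≠ t.2.2.1 := by
  obtain ⟨h2, h3⟩ := xg_pp Z hO h
  rcases h3 with h3 | h3
  · exact Or.inl ⟨h3, h2.symm.trans h3⟩
  · exact Or.inr fun h4 => hne (xg_eq h1 h2 h4 h3)

/-- the next node is a `P`-node -/
theorem xga_np (hO : XCO) {s t : Xs P Q} {l : List (Xs P Q)} {m : Nd P Q}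
    (h : xgCh Z (xgP Z s) (t :: l) m) : xgP Z s = xgP Z t ∧ xgCh Z (xgQ t) l m := by
  rcases h with ⟨h1, _⟩ | h1
  · exact (xg_qp Z hO h1.symm).elim
  · exact h1

/-- the next node is a `Q`-node -/
theorem xga_nq (hO : XCO) {s t : Xs P Q} {l : List (Xs P Q)} {m : Nd P Q}
    (h : xgCh Z (xgQ s) (t :: l) m) : xgQ s = xgQ t ∧ xgCh Z (xgP Z t) l m := by
  rcases h with h1 | ⟨h1, _⟩
  · exact h1
  · exact (xg_qp Z hO h1).elim

end

theorem pd_xga : M_XGA := by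
  intro hT _ hC hO P Q Z x w j hw hR hj hlen
  have hch := xg_ch' Z hO j hw hj
  have hne : ∀ (c d : List (Xs P Q)) (s t : Xs P Q), w = c ++ s :: t :: d → s ≠ t := by
    rintro c d s t e rfl
    obtain ⟨t', ht', _⟩ := hR c [] d s (by simpa using e)
    simp at ht'
  obtain ⟨t1, t2, t3, t4, t5, l, rfl⟩ : ∃ t1 t2 t3 t4 t5 l, w = t1 :: t2 :: t3 :: t4 :: t5 :: l := by
    rcases w with _ | ⟨t1, _ | ⟨t2, _ | ⟨t3, _ | ⟨t4, _ | ⟨t5, l⟩⟩⟩⟩⟩ <;>
      simp at hlen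
    exact ⟨t1, t2, t3, t4, t5, l, rfl⟩
  have n12 := hne [] (t3 :: t4 :: t5 :: l) t1 t2 rfl
  have n23 := hne [t1] (t4 :: t5 :: l) t2 t3 rfl
  have n34 := hne [t1, t2] (t5 :: l) t3 t4 rfl
  have n45 := hne [t1, t2, t3] l t4 t5 rfl
  have j1 := hj t1 (by simp)
  have j2 := hj t2 (by simp)
  have j3 := hj t3 (by simp)
  have j4 := hj t4 (by simp)
  have j5 := hj t5 (by simp)
  rcases hch with ⟨_, c1⟩ | ⟨_, c1⟩
  · obtain ⟨p12, c2⟩ := xga_np Z hO c1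
    obtain ⟨q23, c3⟩ := xga_nq Z hO c2
    obtain ⟨p34, c4⟩ := xga_np Z hO c3
    have d23 := xga_q (j2.trans j3.symm) n23 q23
    refine ⟨⟨t2, by simp, t3, by simp, d23⟩, ?_⟩
    rcases xga_p Z hO (j1.trans j2.symm) n12 p12 with ⟨_, a⟩ | a
    · rcases xga_p Z hO (j3.trans j4.symm) n34 p34 with ⟨b, _⟩ | b
      · exact absurd (a.trans b.symm) d23
      · exact ⟨t3, by simp, t4, by simp, b⟩
    · exact ⟨t1, by simp, t2, by simp, a⟩
  · obtain ⟨q12, c2⟩ := xga_nq Z hO c1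
    obtain ⟨p23, c3⟩ := xga_np Z hO c2
    obtain ⟨q34, c4⟩ := xga_nq Z hO c3
    obtain ⟨p45, c5⟩ := xga_np Z hO c4
    have d34 := xga_q (j3.trans j4.symm) n34 q34
    refine ⟨⟨t3, by simp, t4, by simp, d34⟩, ?_⟩
    rcases xga_p Z hO (j2.trans j3.symm) n23 p23 with ⟨_, a⟩ | a
    · rcases xga_p Z hO (j4.trans j5.symm) n45 p45 with ⟨b, _⟩ | b
      · exact absurd (a.trans b.symm) d34
      · exact ⟨t4, by simp, t5, by simp, b⟩
    · exact ⟨t2, by simp, t3, by simp, a⟩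

end Pool.Agent.H14.PD
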