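import Pool.Agent.H48.PD.XGA

/-!
Project PD, module XGB: a reduced word with one `Q`-name in direction `j + 1` and one `P`-name in
direction `j + 2` is short.
-/

set_option autoImplicit false

namespace Pool.Agent.H14.PD

theorem xgb_f1 (j : Fin 3) : j + 1 ≠ j + 2 := by revert j; decide

/-- splitting a list at the first element of a filtered list -/
theorem xgb_cons {α : Type} {p : α → Bool} {w d : List α} {t : α} (h : w.filter p = t :: d) :
    ∃ a b, w = a ++ t :: b ∧ (∀ r ∈ a, ¬ p r = true) ∧ p t = true ∧ b.filter p = d :=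
  List.filter_eq_cons_iff.1 h

/-- the word in direction `j + 1` -/
theorem xgb_one {P Q : Type} (Z : Sz P Q) (hO : XCO) {i : Fin 3} {q : Q} {n m : Nd P Q}
    {u : List (Xs P Q)} (h : xgCh Z n u m) (hu : ∀ t ∈ u, t.1 = i ∧ t.2.2.1 = q)
    (hne : ∀ (c d : List (Xs P Q)) (s t : Xs P Q), u = c ++ s :: t :: d → s ≠ t) :
    u.length ≤ 4 := by
  by_contra hlen
  obtain ⟨t1, t2, t3, t4, t5, l, rfl⟩ : ∃ t1 t2 t3 t4 t5 l, u = t1 :: t2 :: t3 :: t4 :: t5 :: l := by
    rcases u with _ | ⟨t1, _ | ⟨t2, _ | ⟨t3, _ | ⟨t4, _ | ⟨t5, l⟩⟩⟩⟩⟩ <;>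
      simp at hlen
    exact ⟨t1, t2, t3, t4, t5, l, rfl⟩
  have n12 := hne [] (t3 :: t4 :: t5 :: l) t1 t2 rfl
  have n23 := hne [t1] (t4 :: t5 :: l) t2 t3 rfl
  have n34 := hne [t1, t2] (t5 :: l) t3 t4 rfl
  have n45 := hne [t1, t2, t3] l t4 t5 rfl
  have j1 := hu t1 (by simp)
  have j2 := hu t2 (by simp)
  have j3 := hu t3 (by simp)
  have j4 := hu t4 (by simp)
  have j5 := hu t5 (by simp)
  rcases h with ⟨_, c1⟩ | ⟨_, c1⟩
  · obtain ⟨p12, c2⟩ := xga_np Z hO c1
    obtain ⟨q23, c3⟩ := xga_nq Z hO c2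
    obtain ⟨p34, c4⟩ := xga_np Z hO c3
    have d23 := xga_q (j2.1.trans j3.1.symm) n23 q23
    rcases xga_p Z hO (j1.1.trans j2.1.symm) n12 p12 with ⟨_, a⟩ | a
    · rcases xga_p Z hO (j3.1.trans j4.1.symm) n34 p34 with ⟨b, _⟩ | b
      · exact d23 (a.trans b.symm)
      · exact b (j3.2.trans j4.2.symm)
    · exact a (j1.2.trans j2.2.symm)
  · obtain ⟨q12, c2⟩ := xga_nq Z hO c1
    obtain ⟨p23, c3⟩ := xga_np Z hO c2
    obtain ⟨q34, c4⟩ := xga_nq Z hO c3
    obtain ⟨p45, c5⟩ := xga_np Z hO c4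
    have d34 := xga_q (j3.1.trans j4.1.symm) n34 q34
    rcases xga_p Z hO (j2.1.trans j3.1.symm) n23 p23 with ⟨_, a⟩ | a
    · rcases xga_p Z hO (j4.1.trans j5.1.symm) n45 p45 with ⟨b, _⟩ | b
      · exact d34 (a.trans b.symm)
      · exact b (j4.2.trans j5.2.symm)
    · exact a (j2.2.trans j3.2.symm)

theorem pd_xgb : M_XGB := by
  intro hT _ _ hO hG P Q Z x w j p q hw hR hl
  have T1 := hT _ _ (xlab Z) (xact Z)
  obtain ⟨g1, g2⟩ := hG P Q Z x w j p q hw hR hl
  have hlen : w.length = (w.filter (fun s => s.1 = j + 1)).length +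
      (w.filter (fun s => s.1 = j + 2)).length := by
    clear hw hR g1 g2
    induction w with
    | nil => rfl
    | cons s w ih =>
      have ih' := ih (fun t ht => hl t (by simp [ht]))
      rcases hl s (by simp) with h | h
      · rw [List.filter_cons_of_pos (by simpa using h.1), List.filter_cons_of_neg
          (by simpa using fun e => xgb_f1 j (h.1.symm.trans e))]
        simp only [List.length_cons]
        omega
      · rw [List.filter_cons_of_neg (by simpa using fun e => xgb_f1 j (e.symm.trans h.1)),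
          List.filter_cons_of_pos (by simpa using h.1)]
        simp only [List.length_cons]
        omega
  -- direction `j + 1`
  have h1 : (w.filter (fun s => s.1 = j + 1)).length ≤ 4 := by
    refine xgb_one Z hO (i := j + 1) (q := q) (xg_ch Z hO (j + 1) w x hw) ?_ ?_
    · intro t ht
      rw [List.mem_filter] at ht
      have h2 : t.1 = j + 1 := by simpa using ht.2
      rcases hl t ht.1 with h | h
      · exact h
      · exact absurd (h2.symm.trans h.1) (xgb_f1 j)
    · rintro c d s t e rfl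
      rw [List.filter_eq_append_iff] at e
      obtain ⟨l3, l4, rfl, _, e⟩ := e
      obtain ⟨a, b, rfl, ha, hs, e⟩ := xgb_cons e
      obtain ⟨a', b', rfl, ha', _, _⟩ := xgb_cons e
      refine g1 (l3 ++ a) a' b' s (by simp) (by simpa using hs) ?_
      intro t ht
      have h2 : ¬ t.1 = j + 1 := by simpa using ha' t ht
      rcases hl t (by simp [ht]) with h | h
      · exact absurd h.1 h2
      · exact h.1
  -- direction `j + 2`
  have h2 : (w.filter (fun s => s.1 = j + 2)).length ≤ 2 := by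
    by_contra hlt
    obtain ⟨t1, t2, t3, l, e⟩ : ∃ t1 t2 t3 l,
        w.filter (fun s => s.1 = j + 2) = t1 :: t2 :: t3 :: l := by
      generalize w.filter (fun s => s.1 = j + 2) = f at hlt ⊢
      rcases f with _ | ⟨t1, _ | ⟨t2, _ | ⟨t3, l⟩⟩⟩ <;>
        simp at hlt
      exact ⟨t1, t2, t3, l, rfl⟩
    obtain ⟨a, b, ew, ha, hs1, e⟩ := xgb_cons e
    obtain ⟨u, c, eb, hu, hs2, e⟩ := xgb_cons e
    obtain ⟨v, d, ec, hv, hs3, e⟩ := xgb_cons e
    subst ec
    subst eb
    subst ew
    have k1 : t1.1 = j + 2 := by simpa using hs1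
    have k2 : t2.1 = j + 2 := by simpa using hs2
    have k3 : t3.1 = j + 2 := by simpa using hs3
    have hP : ∀ t ∈ a ++ t1 :: (u ++ t2 :: (v ++ t3 :: d)), t.1 = j + 2 → t.2.1 = p := by
      intro t ht ht2
      rcases hl t ht with h | h
      · exact absurd (h.1.symm.trans ht2) (xgb_f1 j)
      · exact h.2
    have p1 := hP t1 (by simp) k1
    have p2 := hP t2 (by simp) k2
    have p3 := hP t3 (by simp) k3
    have hu' : ∀ t ∈ u, t.1 = j + 1 := by
      intro t ht
      have h3 : ¬ t.1 = j + 2 := by simpa using hu t ht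
      rcases hl t (by simp [ht]) with h | h
      · exact h.1
      · exact absurd h.1 h3
    have hv' : ∀ t ∈ v, t.1 = j + 1 := by
      intro t ht
      have h3 : ¬ t.1 = j + 2 := by simpa using hv t ht
      rcases hl t (by simp [ht]) with h | h
      · exact h.1
      · exact absurd h.1 h3
    obtain ⟨l0, _, _, r1, _⟩ := xg_gd Z hO hT hw
    obtain ⟨l1, _, _, r2, _⟩ := xg_gd Z hO hT r1
    obtain ⟨l2, _, _, _, _⟩ := xg_gd Z hO hT r2
    have c1 : en (xact Z) (xact Z (en (xact Z) x a) t1) u (j + 2) =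
        xact Z (en (xact Z) x a) t1 (j + 2) :=
      (hO P Q Z).2.1 _ u (j + 2) (fun t ht => by
        simpa using hu t ht)
    have c2 : en (xact Z) (xact Z (en (xact Z) (xact Z (en (xact Z) x a) t1) u) t2) v (j + 2) =
        xact Z (en (xact Z) (xact Z (en (xact Z) x a) t1) u) t2 (j + 2) :=
      (hO P Q Z).2.1 _ v (j + 2) (fun t ht => by
        simpa using hv t ht)
    have a0 := xg_lab Z hO l0
    have a1 := xg_lab Z hO l1
    have a2 := xg_lab Z hO l2
    rw [k1] at a0
    rw [k2, c1] at a1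
    rw [k3, c2] at a2
    rcases a0 with ⟨_, b0⟩ | ⟨_, b0⟩
    · -- a `P`-node after `t1`, hence a `Q`-node after `t2`
      rcases a1 with ⟨b1, _⟩ | ⟨_, b1⟩
      · exact (xg_qp Z hO (b1.symm.trans b0)).elim
      · rcases a2 with ⟨b2, _⟩ | ⟨b2, _⟩
        · have e' := xg_qq (b1.symm.trans b2)
          have : t2 = t3 := xg_eq (k2.trans k3.symm) (p2.trans p3.symm) e'.1 e'.2
          subst this
          refine g2 (a ++ t1 :: u) v d t2 (by simp) k2 ?_ hv'
          have h5 : en (xact Z) x ((a ++ t1 :: u) ++ [t2]) =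
              xact Z (en (xact Z) (xact Z (en (xact Z) x a) t1) u) t2 := by
            rw [T1.2.1, T1.2.1]
            rfl
          rw [h5]
          exact b1
        · exact (xg_qp Z hO (b1.symm.trans b2)).elim
    · -- a `Q`-node after `t1`
      rcases a1 with ⟨b1, _⟩ | ⟨b1, _⟩
      · have e' := xg_qq (b0.symm.trans b1)
        have : t1 = t2 := xg_eq (k1.trans k2.symm) (p1.trans p2.symm) e'.1 e'.2
        subst this
        refine g2 a u (v ++ t3 :: d) t1 (by simp) k1 ?_ hu'
        have h5 : en (xact Z) x (a ++ [t1]) = xact Z (en (xact Z) x a) t1 := by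
          rw [T1.2.1]
          rfl
        rw [h5]
        exact b0
      · exact (xg_qp Z hO (b0.symm.trans b1)).elim
  omega

end Pool.Agent.H14.PD
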