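import Pool.Agent.H48.PD.XG

/-!
Project PD, module XGP: repeated letters in words with one `Q`-name in direction `j + 1` and one
`P`-name in direction `j + 2`.
-/

set_option autoImplicit false

namespace Pool.Agent.H14.PD

theorem pd_xgp_f1 (j : Fin 3) : j + 1 + 1 = j + 2 := by revert j; decide
theorem pd_xgp_f2 (j : Fin 3) : j + 1 ≠ j + 2 := by revert j; decide

/-- short paths of labels with one `P`-name -/
theorem pd_xgp_short {P Q : Type} (Z : Sz P Q) (hO : XCO) (i : Fin 3) (p : P) {n m : Nd P Q}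
    {u : List (Xs P Q)} (h : xgCh Z n u m) (hu : ∀ t ∈ u, t.1 = i ∧ t.2.1 = p)
    (hne : ∀ (c d : List (Xs P Q)) (t : Xs P Q), u ≠ c ++ t :: t :: d) :
    ∀ t ∈ u, n = xgQ t ∨ m = xgQ t := by
  rcases u with _ | ⟨t1, u⟩
  · intro t ht
    simp at ht
  · rcases u with _ | ⟨t2, u⟩
    · intro t ht
      have : t = t1 := by simpa using ht
      subst this
      rcases h with ⟨h1, _⟩ | ⟨_, h2⟩
      · exact Or.inl h1
      · have h3 : xgQ t = m := h2
        exact Or.inr h3.symm
    · have h12 : t1 ≠ t2 := by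
        intro e
        subst e
        exact hne [] u t1 rfl
      have a1 := hu t1 (by simp)
      have a2 := hu t2 (by simp)
      have key : xgQ t1 ≠ xgQ t2 := by
        intro e
        have e' := xg_qq e
        exact h12 (xg_eq (a1.1.trans a2.1.symm) (a1.2.trans a2.2.symm) e'.1 e'.2)
      rcases h with ⟨h1, h2⟩ | ⟨h1, h2⟩
      · rcases h2 with ⟨h2, _⟩ | ⟨h2, h3⟩
        · exact (xg_qp Z hO h2.symm).elim
        · rcases u with _ | ⟨t3, u⟩
          · intro t ht
            have : t = t1 ∨ t = t2 := by simpa using ht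
            rcases this with rfl | rfl
            · exact Or.inl h1
            · have h4 : xgQ t = m := h3
              exact Or.inr h4.symm
          · exfalso
            have h23 : t2 ≠ t3 := by
              intro e
              subst e
              exact hne [t1] u t2 rfl
            have a3 := hu t3 (by simp)
            rcases h3 with ⟨h3, _⟩ | ⟨h3, _⟩
            · have e' := xg_qq h3
              exact h23 (xg_eq (a2.1.trans a3.1.symm) (a2.2.trans a3.2.symm) e'.1 e'.2)
            · exact xg_qp Z hO h3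
      · exfalso
        rcases h2 with ⟨h2, _⟩ | ⟨h2, _⟩
        · exact key h2
        · exact xg_qp Z hO h2

theorem pd_xgp : M_XGP := by
  intro hT _ _ hO P Q Z x w j p q hw hR hl
  have T1 := hT _ _ (xlab Z) (xact Z)
  refine ⟨fun a u b s e hs hu => ?_, fun a u b t e ht hq hu => ?_⟩
  · -- a repeated letter of direction `j + 1`
    have hR' := hR a u b s e
    subst e
    obtain ⟨l0, g0, g1, r1, _⟩ := xg_gd Z hO hT hw
    set y0 := en (xact Z) x a with hy0
    set y1 := xact Z y0 s with hy1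
    obtain ⟨l2, g2, g3, r3, r2⟩ := xg_gd Z hO hT r1
    set y2 := en (xact Z) y1 u with hy2
    set y3 := xact Z y2 s with hy3
    have hu1 : ∀ t ∈ u, t.1 ≠ j + 1 := by
      intro t ht e
      exact pd_xgp_f2 j (e.symm.trans (hu t ht))
    have k1 : y2 (j + 1) = y1 (j + 1) := ((hO P Q Z).2.1 y1 u (j + 1) hu1)
    have k2 : y1 (j + 2) = y0 (j + 2) := xg_oth Z hO l0 (by rw [hs]; exact pd_xgp_f2 j)
    have k3 : y3 (j + 2) = y2 (j + 2) := xg_oth Z hO l2 (by rw [hs]; exact pd_xgp_f2 j)
    have hall : ∀ t ∈ u, Z.adj s.2.1 t.2.2.1 := by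
      rcases xg_lab Z hO l0 with ⟨h1, h2⟩ | ⟨h1, h2⟩
      · -- a `P`-node after `s`
        rw [hs] at h1 h2
        intro t ht
        obtain ⟨u1, u2, rfl⟩ := List.append_of_mem ht
        obtain ⟨lz, gz, gz', _, _⟩ := xg_gd Z hO hT r2
        have c1 : en (xact Z) y1 u1 (j + 1) = y1 (j + 1) :=
          (hO P Q Z).2.1 y1 u1 (j + 1) (fun t ht => hu1 t (by simp [ht]))
        have c2 : xact Z (en (xact Z) y1 u1) t (j + 1) = en (xact Z) y1 u1 (j + 1) :=
          xg_oth Z hO lz (by rw [hu t ht]; exact (pd_xgp_f2 j).symm)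
        have ht2 := hu t ht
        rcases xg_lab Z hO lz with ⟨h3, _⟩ | ⟨_, h4⟩
        · refine xg_adj Z hO gz (i := j + 1) (c1.trans h2) ?_
          rw [pd_xgp_f1, ← ht2]
          exact h3
        · refine xg_adj Z hO gz' (i := j + 1) (c2.trans (c1.trans h2)) ?_
          rw [pd_xgp_f1, ← ht2]
          exact h4
      · -- a `Q`-node after `s`
        rw [hs] at h1 h2
        have h3 : y3 (j + 1) = xgP Z s := by
          rcases xg_lab Z hO l2 with ⟨h3, h4⟩ | ⟨h3, h4⟩
          · rw [hs] at h4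
            exact h4
          · rw [hs] at h3
            exact (xg_qp Z hO (h2.symm.trans (k1.symm.trans h3))).elim
        have hch := xg_ch' Z hO (j + 2) r2 hu
        have hp : ∀ t ∈ u, t.1 = j + 2 ∧ t.2.1 = p := by
          intro t ht
          have h5 := hl t (by simp [ht])
          rcases h5 with h5 | h5
          · exact absurd h5.1 (hu1 t ht)
          · exact h5
        have hne : ∀ (c d : List (Xs P Q)) (t : Xs P Q), u ≠ c ++ t :: t :: d := by
          rintro c d t rfl
          obtain ⟨t', ht', _⟩ := hR (a ++ s :: c) [] (d ++ s :: b) t (by simp)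
          simp at ht'
        intro t ht
        rcases pd_xgp_short Z hO (j + 2) p hch hp hne t ht with h5 | h5
        · refine xg_adj Z hO g0 (i := j + 1) h1 ?_
          rw [pd_xgp_f1, ← k2]
          exact h5
        · refine xg_adj Z hO g3 (i := j + 1) h3 ?_
          rw [pd_xgp_f1, k3]
          exact h5
    obtain ⟨t, ht, hc⟩ := hR'
    refine hc (Or.inl ⟨?_, hall t ht⟩)
    rw [hu t ht, hs, pd_xgp_f1]
  · -- a repeated letter of direction `j + 2`
    obtain ⟨s, hs, hc⟩ := hR a u b t e
    subst e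
    obtain ⟨l0, g0, g1, r1, _⟩ := xg_gd Z hO hT hw
    have hq' : xact Z (en (xact Z) x a) t (j + 2) = xgQ t := by
      rw [T1.2.1] at hq
      exact hq
    obtain ⟨_, _, _, _, r2⟩ := xg_gd Z hO hT r1
    obtain ⟨u1, u2, rfl⟩ := List.append_of_mem hs
    obtain ⟨lz, gz, gz', _, _⟩ := xg_gd Z hO hT r2
    have hu2 : ∀ t ∈ u1, t.1 ≠ j + 2 := by
      intro t ht e
      exact pd_xgp_f2 j ((hu t (by simp [ht])).symm.trans e)
    have c1 : en (xact Z) (xact Z (en (xact Z) x a) t) u1 (j + 2) = xgQ t :=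
      ((hO P Q Z).2.1 _ u1 (j + 2) hu2).trans hq'
    have hs1 := hu s hs
    have c2 : xact Z (en (xact Z) (xact Z (en (xact Z) x a) t) u1) s (j + 2) =
        en (xact Z) (xact Z (en (xact Z) x a) t) u1 (j + 2) :=
      xg_oth Z hO lz (by rw [hs1]; exact pd_xgp_f2 j)
    refine hc (Or.inr ⟨by rw [ht, hs1, pd_xgp_f1], ?_⟩)
    rcases xg_lab Z hO lz with ⟨_, h4⟩ | ⟨h3, _⟩
    · rw [hs1] at h4
      refine xg_adj Z hO gz' (i := j + 1) h4 ?_
      rw [pd_xgp_f1, c2]
      exact c1
    · rw [hs1] at h3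
      refine xg_adj Z hO gz (i := j + 1) h3 ?_
      rw [pd_xgp_f1]
      exact c1

end Pool.Agent.H14.PD
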